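import Pool.Agent.Y587.TC.Tower

set_option autoImplicit false

/-!
# Two-colourings of `m`-element subsets with large homogeneous sets of both classes everywhere

For every infinite cardinal `μ` and every `m ≥ 2` the `m`-element subsets of a set with at most
`exp (m - 1) μ` elements can be split into two classes such that every subset with more than `μ`
elements contains, for each class and each `n`, an `n`-element set all of whose `m`-element subsets
lie in that class.  For `μ = ℵ₀` and `m = 3` this answers the question (with `n` in place of `4`).

The proof steps up: let `f` be such a colouring of the `m`-element subsets of a well-ordered set `K`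
and let `P` well-order the functions from `K` to `{0, 1}`.  A comb `x 0, …, x m` of such functions
with increasing splitting levels gets the `f`-colour of the set of its levels if `P` increases along
it; it gets class one if `P` decreases along it and the comb turns to the left, and all other sets
get class zero.  If every big node of a big set `A` splits into two big nodes, then `A` contains long
finite combs of either direction along which `P` decreases; otherwise `A` contains a big comb, which
can be thinned out to a comb along which `P` increases.  The first step starts from a set `K` of
size `μ`, where the second case does not occur.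
-/

namespace Pool.Agent.Results.MP_dc3585_lc.AllExponents

open Cardinal

universe u

/-- Iterated exponentials: `expo μ 0 = μ` and `expo μ (j + 1) = 2 ^ expo μ j`. -/
def expo (μ : Cardinal.{u}) : ℕ → Cardinal.{u}
  | 0 => μ
  | j + 1 => 2 ^ expo μ j

theorem expo_eq (μ : Cardinal.{u}) (j : ℕ) : expo μ j = Pool.Agent.Y587.TC.tower μ j := by
  induction j with
  | zero => rfl
  | succ j ih =>
    show 2 ^ expo μ j = 2 ^ Pool.Agent.Y587.TC.tower μ j
    rw [ih]

/-- Let `μ` be an infinite cardinal and `m ≥ 2`.  The `m`-element subsets of every set `S` with at
most `expo μ (m - 1)` elements can be split into two classes such that every subset `A` of `S` with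
more than `μ` elements contains, for each class `i` and each `n`, an `n`-element set all of whose
`m`-element subsets lie in class `i`. -/
theorem result (μ : Cardinal.{u}) (hμ : ℵ₀ ≤ μ) (m : ℕ) (hm : 2 ≤ m) (S : Type u)
    (hS : #S ≤ expo μ (m - 1)) :
    ∃ c : Finset S → Fin 2, ∀ A : Set S, μ < #A → ∀ (i : Fin 2) (n : ℕ),
      ∃ Y : Finset S, Y.card = n ∧ ↑Y ⊆ A ∧ ∀ t ⊆ Y, t.card = m → c t = i := by
  obtain ⟨j, rfl⟩ : ∃ j, m = j + 2 := ⟨m - 2, by omega⟩
  rw [show j + 2 - 1 = j + 1 from rfl, expo_eq] at hS
  exact Pool.Agent.Y587.TC.exists_good_coloring hμ j S hS

end Pool.Agent.Results.MP_dc3585_lc.AllExponents
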